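import Pool.Agent.H33.Cubic.Many

/-!
Primes `m ^ 3 + k` in very short ranges of `m`, for a positive proportion of all non-cubes `k`.
-/

namespace Pool.Agent.H33.Variants.ManyPrimes

open Pool.Agent.H33.Cubic

theorem result : ∀ ε A : ℝ, 0 < ε → 0 < A →
    ∃ c : ℝ, 0 < c ∧ ∃ X₀ : ℕ, ∀ X M : ℕ, X₀ ≤ X → ε * Real.log X ≤ M → M ^ 3 ≤ X →
      c * X ≤ ((Set.ncard {k : ℕ | 1 ≤ k ∧ k ≤ X ∧ ¬ IsCube k ∧ 1 ≤ primeCount k M ∧
        A * (M / Real.log X) ≤ primeCount k M} : ℕ) : ℝ) :=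
  fun ε A hε hA => many ε A hε hA

end Pool.Agent.H33.Variants.ManyPrimes
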